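import Pool.Agent.Lib.H18G.Fin
import Pool.Agent.Lib.H18G.AllT
import Pool.Agent.Lib.H6E.A9

/-!
# Equidistribution of the ordinary primes in the Frobenius classes of almost all Galois extensions
-/

namespace Pool.Agent.Results.MP_0dad22_ag.OrdinaryChebotarev

open UpperHalfPlane MatrixGroups Filter Topology NumberField

/-- The Newton polygon of the Hecke polynomial `X² - τ(a) X + τ(c) p^(k-1)` at the embedding `τ` of
`E` into the algebraic closure of `ℚ_p` has the slopes `0` and `k - 1`: the polynomial is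
`(X - x)(X - y)` with `‖x‖ = 1` and `‖y‖ = p^(-(k-1))` (the absolute value is normalised by
`‖p‖ = 1/p`). -/
def OrdAt (k p : ℕ) [Fact p.Prime] {E : Type*} [Field E] (a c : E) (τ : E →+* PadicAlgCl p) : Prop :=
  ∃ x y : PadicAlgCl p, x + y = τ a ∧ x * y = τ c * (p : PadicAlgCl p) ^ (k - 1) ∧
    ‖x‖ = 1 ∧ ‖y‖ = (p : ℝ) ^ (-((k : ℤ) - 1))

/-- `p` is prime and the Hecke polynomial is ordinary at some `τ`, and at every `τ` if `a²` is a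
rational multiple of `c`. -/
def Ordinary (k p : ℕ) {E : Type*} [Field E] (a c : E) : Prop :=
  ∃ _ : Fact p.Prime, (∃ τ : E →+* PadicAlgCl p, OrdAt k p a c τ) ∧
    ((∃ r : ℚ, a ^ 2 = (r : E) * c) → ∀ τ : E →+* PadicAlgCl p, OrdAt k p a c τ)

/-- The set of the ordinary primes `p` not dividing `N`. -/
def OrdSet (N k : ℕ) {E : Type*} [Field E] [NumberField E] (a χ : ℕ → 𝓞 E) : Set ℕ :=
  {p : ℕ | ¬ p ∣ N ∧ Ordinary k p (a p : E) (χ p : E)}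

/-- `σ` is a Frobenius element at `p`: at some prime ideal `W` of `𝓞 L` containing `p` one has
`σ y ≡ y ^ p` modulo `W` for all `y` in `𝓞 L`. -/
def IsFrob (p : ℕ) {L : Type*} [Field L] [Algebra ℚ L] (σ : L ≃ₐ[ℚ] L) : Prop :=
  ∃ W : Ideal (𝓞 L), W.IsPrime ∧ (p : 𝓞 L) ∈ W ∧ ∀ y : 𝓞 L, σ • y - y ^ p ∈ W

/-- The number of the `p ≤ X n` in `A`, divided by the number of the primes `p ≤ X n`, tends to `d`. -/
def Dens (X : ℕ → ℕ) (A : Set ℕ) (d : ℝ) : Prop :=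
  Tendsto (fun n => ({p : ℕ | p ≤ X n ∧ p ∈ A}.ncard : ℝ) / (Nat.primeCounting (X n) : ℝ)) atTop (𝓝 d)

/-- The proportion of `C` in the Galois group. -/
noncomputable def prop {L : Type*} [Field L] [Algebra ℚ L] (C : Set (L ≃ₐ[ℚ] L)) : ℝ :=
  (C.ncard : ℝ) / (Nat.card (L ≃ₐ[ℚ] L) : ℝ)

theorem result (N k : ℕ) (hN : N ≠ 0) (hk : 4 ≤ k) (E : Type*) [Field E] [NumberField E]
    (a χ : ℕ → 𝓞 E)
    (hf : ∀ σ : E →+* ℂ, ∃ f : CuspForm (CongruenceSubgroup.Gamma1 N : Subgroup SL(2, ℤ)) (k : ℤ),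
      ∀ n, (qExpansion 1 (f : ℍ → ℂ)).coeff n = σ (a n))
    (h1 : a 1 = 1) (hχ : ∀ p : ℕ, p.Prime → ¬ p ∣ N → IsUnit (χ p))
    (hH : ∀ p : ℕ, p.Prime → ¬ p ∣ N → ∀ n,
      a (p * n) = a p * a n - (if p ∣ n then χ p * (p : 𝓞 E) ^ (k - 1) * a (n / p) else 0)) :
    ∃ δ : ℝ, 0 < δ ∧ ∀ Y : ℕ → ℕ, Tendsto Y atTop atTop → ∃ φ : ℕ → ℕ, StrictMono φ ∧
      ∃ m : ℝ, δ ≤ m ∧ Dens (fun n => Y (φ n)) (OrdSet N k a χ) m ∧
        ∃ s : (L : IntermediateField ℚ (AlgebraicClosure ℚ)) → Set (L ≃ₐ[ℚ] L) → ℝ,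
          (∀ L : IntermediateField ℚ (AlgebraicClosure ℚ), NumberField L → ∀ C : Set (L ≃ₐ[ℚ] L),
            Dens (fun n => Y (φ n)) {p | p ∈ OrdSet N k a χ ∧ ∃ σ ∈ C, IsFrob p σ} (s L C)) ∧
          ∀ (F : Finset (IntermediateField ℚ (AlgebraicClosure ℚ)))
            (C : (L : IntermediateField ℚ (AlgebraicClosure ℚ)) → Set (L ≃ₐ[ℚ] L)),
            (∀ L ∈ F, NumberField L ∧ IsGalois ℚ L ∧ ∀ σ τ, IsConj σ τ → σ ∈ C L → τ ∈ C L) →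
            (∀ L ∈ F, ∀ L' ∈ F, L ≠ L' → L ⊓ L' = ⊥) →
              ∑ L ∈ F, (s L (C L) - m * prop (C L)) ^ 2 / (prop (C L) * (1 - prop (C L))) ≤
                m * (1 - m) := by
  obtain ⟨δ, hδ, hX⟩ := H18G.ordinary_density N k hN hk E a χ hf h1 hχ hH
  have hS : ∀ᶠ Y : ℕ in atTop, δ * (Nat.primeCounting Y : ℝ) ≤ H6E.cnt (OrdSet N k a χ) Y := by
    filter_upwards [hX] with Y h3
    refine h3.trans (Nat.cast_le.2 (Set.ncard_le_ncard ?_ ((Set.finite_le_nat Y).subset fun p hp => hp.1)))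
    rintro p ⟨e2, e3, e4, e5, τ, x, y, e6, e7, e8, e9⟩
    exact ⟨e2, e3, e4, e5, ⟨τ, x, y, e6, e7, e8, e9⟩, fun hr τ' =>
      H18G.all_places k p (by omega) (a p) (χ p) (hχ p e3 e4) hr τ x y e6 e8 e9 τ'⟩
  refine ⟨δ, hδ, fun Y hY => ?_⟩
  obtain ⟨φ, hφ, m, hm, s, h2, h3, h4⟩ := H6E.bessel_limQb (OrdSet N k a χ) hδ hS Y hY
  refine ⟨φ, hφ, m, hm, ?_, s, fun L hL C => ?_, h4⟩
  · refine h2.congr fun n => ?_
    unfold H6E.cnt
    congr 3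
    ext p
    exact ⟨fun h => ⟨h.1, h.2.2⟩, fun h => ⟨h.1, h.2.2.1.out, h.2⟩⟩
  · refine (h3 L hL C).congr fun n => ?_
    unfold H6E.cnt
    congr 3
    ext p
    exact ⟨fun h => ⟨h.1, h.2.2⟩, fun h => ⟨h.1, h.2.1.2.1.out, h.2⟩⟩

end Pool.Agent.Results.MP_0dad22_ag.OrdinaryChebotarev
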