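import Pool.Agent.Lib.H36T.Final

/-!
# Infinitely many ordinary primes of degree one for every Hilbert newform of parallel weight ≥ 4

`F` is a totally real field of degree `d ≥ 2`. The system `C` of Hecke eigenvalues of a Hilbert
newform `f` of parallel weight `k` and level `𝔫`, with an arbitrary central character `χ`
(nebentypus), satisfies `IsHecke` (Shimura), and for every embedding `σ` of the field `E` generated
by the eigenvalues the series `∑ σ(C((ξ))) exp(2πi Tr(ξ z))` over the totally positive integers `ξ`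
is a Hilbert cusp form for the group `Γ₁(𝔫)`: the component at the principal genus of the conjugate
of `f` (`IsHilbertCusp1`).
-/

namespace Pool.Agent.Results.MP_0dad22_ag.OrdinaryDegreeOne

open NumberField H36H

/-- Let `F` be totally real of degree `d ≥ 2`, `k ≥ 4`, and `C` a system of Hecke eigenvalues of
parallel weight `k` and level `𝔫` with values in the integers of a number field `E`, such that for
every embedding of `E` in `ℂ` the corresponding series is a Hilbert cusp form for `Γ₁(𝔫)`. Then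
there are infinitely many primes `P` of `F` whose norm is a prime number `p`, prime to `𝔫`, which
are ordinary (for some place of `E` above `p`), and for `η < 1 / d` the number of the `p ≤ X` which
are the norm of such a prime is not `O(X ^ η)`. A prime `P` of `F` above `p` which is ordinary for
some place of `E` above `p` is ordinary for every place of `E` above `p` if `C(P) ^ 2` is a
rational multiple of `χ(P)`. -/
theorem result (F : Type*) [Field F] [NumberField F] [IsTotallyReal F]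
    (hF : 2 ≤ Module.finrank ℚ F) (k : ℕ) (hk : 4 ≤ k) (𝔫 : Ideal (𝓞 F)) (h𝔫 : 𝔫 ≠ ⊥)
    (E : Type*) [Field E] [NumberField E] (χ C : Ideal (𝓞 F) → 𝓞 E) (hC : IsHecke k 𝔫 χ C)
    (hχ : ∀ P : Ideal (𝓞 F), P.IsPrime → P ≠ ⊥ → ¬ P ∣ 𝔫 → IsUnit (χ P))
    (hf : ∀ σ : E →+* ℂ, IsHilbertCusp1 k 𝔫 (fun ξ => σ (C (Ideal.span {ξ}) : E))) :
    {P : Ideal (𝓞 F) | P.IsPrime ∧ ¬ P ∣ 𝔫 ∧ ∃ (p : ℕ) (_ : Fact p.Prime), Ideal.absNorm P = p ∧
      ∃ τ : E →+* PadicAlgCl p, IsOrdAt k χ C p P τ}.Infinite ∧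
    (∀ η : ℝ, η < 1 / (Module.finrank ℚ F : ℝ) →
      ¬ ∃ K : ℝ, ∀ X : ℕ, (Set.ncard {p : ℕ | p ≤ X ∧ ∃ (_ : Fact p.Prime) (P : Ideal (𝓞 F)),
        P.IsPrime ∧ Ideal.absNorm P = p ∧ ¬ P ∣ 𝔫 ∧ ∃ τ : E →+* PadicAlgCl p, IsOrdAt k χ C p P τ} : ℝ) ≤
          K * (X : ℝ) ^ η) ∧
    ∀ (P : Ideal (𝓞 F)) (p : ℕ) [Fact p.Prime], P.IsPrime → (p : 𝓞 F) ∈ P → ¬ P ∣ 𝔫 →
      (∃ τ : E →+* PadicAlgCl p, IsOrdAt k χ C p P τ) →
      (∃ r : ℚ, (C P : E) ^ 2 = (r : E) * (χ P : E)) →
      ∀ τ : E →+* PadicAlgCl p, IsOrdAt k χ C p P τ :=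
  ordinary_degOne F hF k hk 𝔫 h𝔫 E χ C hC hχ hf

end Pool.Agent.Results.MP_0dad22_ag.OrdinaryDegreeOne
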