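import Pool.Agent.Lib.H18G.Fin
import Pool.Agent.Lib.H18G.AllT

/-!
# A positive proportion of the primes is ordinary, for every newform of weight at least four
-/

namespace Pool.Agent.Results.MP_0dad22_ag.OrdinaryDensity

open UpperHalfPlane MatrixGroups Filter Topology NumberField

/-- The Newton polygon of the Hecke polynomial `X² - τ(a) X + τ(c) p^(k-1)` at the embedding `τ` of
`E` into the algebraic closure of `ℚ_p` has the slopes `0` and `k - 1`: the polynomial is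
`(X - x)(X - y)` with `‖x‖ = 1` and `‖y‖ = p^(-(k-1))` (the absolute value is normalised by
`‖p‖ = 1/p`). -/
def OrdAt (k p : ℕ) [Fact p.Prime] {E : Type*} [Field E] (a c : E) (τ : E →+* PadicAlgCl p) : Prop :=
  ∃ x y : PadicAlgCl p, x + y = τ a ∧ x * y = τ c * (p : PadicAlgCl p) ^ (k - 1) ∧
    ‖x‖ = 1 ∧ ‖y‖ = (p : ℝ) ^ (-((k : ℤ) - 1))

/-- `p` is prime and the Hecke polynomial is ordinary at some `τ`, and at every `τ` if `a²` is a
rational multiple of `c`. -/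
def Ordinary (k p : ℕ) {E : Type*} [Field E] (a c : E) : Prop :=
  ∃ _ : Fact p.Prime, (∃ τ : E →+* PadicAlgCl p, OrdAt k p a c τ) ∧
    ((∃ r : ℚ, a ^ 2 = (r : E) * c) → ∀ τ : E →+* PadicAlgCl p, OrdAt k p a c τ)

theorem result (N k : ℕ) (hN : N ≠ 0) (hk : 4 ≤ k) (E : Type*) [Field E] [NumberField E]
    (a χ : ℕ → 𝓞 E)
    (hf : ∀ σ : E →+* ℂ, ∃ f : CuspForm (CongruenceSubgroup.Gamma1 N : Subgroup SL(2, ℤ)) (k : ℤ),
      ∀ n, (qExpansion 1 (f : ℍ → ℂ)).coeff n = σ (a n))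
    (h1 : a 1 = 1) (hχ : ∀ p : ℕ, p.Prime → ¬ p ∣ N → IsUnit (χ p))
    (hH : ∀ p : ℕ, p.Prime → ¬ p ∣ N → ∀ n,
      a (p * n) = a p * a n - (if p ∣ n then χ p * (p : 𝓞 E) ^ (k - 1) * a (n / p) else 0)) :
    ∃ δ : ℝ, 0 < δ ∧ ∀ᶠ X : ℕ in atTop, δ * (Nat.primeCounting X : ℝ) ≤
      ({p : ℕ | p ≤ X ∧ ¬ p ∣ N ∧ Ordinary k p (a p : E) (χ p : E)}.ncard : ℝ) := by
  obtain ⟨δ, hδ, hX⟩ := H18G.ordinary_density N k hN hk E a χ hf h1 hχ hH
  refine ⟨δ, hδ, hX.mono fun X h => h.trans ?_⟩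
  have hfin : {p : ℕ | p ≤ X ∧ ¬ p ∣ N ∧ Ordinary k p (a p : E) (χ p : E)}.Finite :=
    (Set.finite_Iic X).subset fun p hp => hp.1
  refine Nat.cast_le.2 (Set.ncard_le_ncard ?_ hfin)
  rintro p ⟨h2, h3, h4, h5, τ, x, y, h6, h7, h8, h9⟩
  exact ⟨h2, h4, h5, ⟨τ, x, y, h6, h7, h8, h9⟩, fun hr τ' =>
    H18G.all_places k p (by omega) (a p) (χ p) (hχ p h3 h4) hr τ x y h6 h8 h9 τ'⟩

end Pool.Agent.Results.MP_0dad22_ag.OrdinaryDensity
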