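import Mathlib
import Pool.Agent.Lib.Helper95.Ord.Galois2
import Pool.Agent.Lib.Helper95.Ord.Global

/-!
# Ordinary primes for motives with coefficients: Serre's criterion
-/

open Finset Module NumberField
open scoped ComplexConjugate

noncomputable section

namespace Pool.Agent.Results.MP_0dad22_ag.SerreCriterion

variable {Ω : Type*} [Field Ω] [CharZero Ω]

/-- `φ` induces the `p`-power map on the residue field of the place of the algebraic closure `Ω` of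
`ℚ` given by the embedding `v : Ω → ℚ̄_p`. If moreover `φ` fixes the number field `F ⊆ Ω`, then the
prime of `F` below this place has residue field `𝔽_p` and `φ` is an (arithmetic) Frobenius element
at this prime. -/
def IsFrob (p : ℕ) [Fact p.Prime] (v : Ω →+* PadicAlgCl p) (φ : Gal(Ω/ℚ)) : Prop :=
  ∀ x : 𝓞 Ω, ‖v (φ (x : Ω) - (x : Ω) ^ p)‖ < 1

/-- The height above `i` of the convex polygon with slopes `s 0 ≤ s 1 ≤ ...`. -/
def height {n : ℕ} (s : Fin n → ℕ) (i : ℕ) : ℕ := ∑ k with (k : Fin n).val < i, s k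

/-- `i` is the abscissa of a break point (`0 < i < n`) of the polygon with slopes `s`. -/
def IsBreak {n : ℕ} (s : Fin n → ℕ) (i : ℕ) : Prop :=
  ∃ a b : Fin n, a.val + 1 = i ∧ b.val = i ∧ s a < s b

/-- The algebra of functions on `Γ` generated by the matrix coefficients of the representations
`ρ a`. -/
def coordAlg {Γ κ K : Type*} [Group Γ] [Field K] {n : κ → ℕ}
    (ρ : ∀ a, Γ →* Matrix (Fin (n a)) (Fin (n a)) K) : Subalgebra K (Γ → K) :=
  Algebra.adjoin K {f | ∃ a i j, f = fun x => ρ a x i j}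

/-- The Zariski closure of the image of `Γ` under all the `ρ a` is connected: a polynomial in the
matrix coefficients which vanishes on an open subgroup vanishes on the whole group. -/
def IsConnected {Γ κ K : Type*} [Group Γ] [TopologicalSpace Γ] [Field K] {n : κ → ℕ}
    (ρ : ∀ a, Γ →* Matrix (Fin (n a)) (Fin (n a)) K) : Prop :=
  ∀ U : Subgroup Γ, IsOpen (U : Set Γ) → ∀ f ∈ coordAlg ρ, (∀ x ∈ U, f x = 0) → f = 0

/-- The realisations of a motive over the number field `F` fixed by `Γ`, with coefficients in the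
number field `E` (totally real or CM), of rank `n` over `E` and weight `w`. -/
structure ESystem (Γ : Subgroup Gal(Ω/ℚ)) (ℓ : ℕ) [Fact ℓ.Prime] (E : Type*) [Field E]
    [NumberField E] where
  /-- the rank over `E` -/
  n : ℕ
  /-- the weight -/
  w : ℕ
  /-- the slopes of the Hodge polygon of the `σ`-part of the realisation, `σ : E → ℚ̄` -/
  s : (E →+* Ω) → Fin n → ℕ
  s_mono : ∀ σ, Monotone (s σ)
  /-- the `σ`-parts and the `γσ`-parts are conjugate over `F` -/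
  s_galois : ∀ γ ∈ Γ, ∀ σ : E →+* Ω, s (((γ : Ω ≃+* Ω) : Ω →+* Ω).comp σ) = s σ
  /-- complex conjugation on `E` -/
  c : E →+* E
  c_conj : ∀ (η : E →+* ℂ) (x : E), η (c x) = conj (η x)
  /-- Hodge symmetry -/
  s_symm : ∀ (σ : E →+* Ω) (i : Fin n), s (σ.comp c) i + s σ i.rev = w
  /-- the `lam`-part of the `ℓ`-adic realisation, `lam : E → ℂ_ℓ` -/
  ρ : (E →+* ℂ_[ℓ]) → (Γ →* Matrix (Fin n) (Fin n) ℂ_[ℓ])
  cont : ∀ lam, Continuous (ρ lam)
  /-- the bad primes -/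
  bad : Finset ℕ
  /-- At a prime of degree one of `F` above `p` outside the bad set, the characteristic polynomials
  of the geometric Frobenius element on the `lam`-parts come from a polynomial `P` over the integers
  of `E`; it is pure of weight `w`; and the Newton polygon lies on or above the Hodge polygon. -/
  compat : ∀ (p : ℕ) [Fact p.Prime], p ∉ bad → ∀ (v : Ω →+* PadicAlgCl p) (φ : Γ),
    IsFrob p v (φ : Gal(Ω/ℚ)) → ∃ P : Polynomial (𝓞 E),
      (∀ lam, (ρ lam φ⁻¹).charpoly = P.map (lam.comp (algebraMap (𝓞 E) E))) ∧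
      (∀ (η : E →+* ℂ) (z : ℂ), (P.map (η.comp (algebraMap (𝓞 E) E))).IsRoot z →
        ‖z‖ ^ 2 = (p : ℝ) ^ w) ∧
      ∀ (σ : E →+* Ω), ∀ i ≤ n, ‖v (σ (P.coeff (n - i)))‖ ≤ ((p : ℝ)⁻¹) ^ height (s σ) i

/-- The embeddings `g ^ k σ`, together with the embeddings whose complex conjugate is of this form
if `half` holds. -/
def orbit {E : Type*} [Field E] (g : Gal(Ω/ℚ)) (c : E →+* E) (σ : E →+* Ω) (half : Prop) :
    Set (E →+* Ω) :=
  {σ' | ∃ k : ℕ, (∀ x, (g ^ k) (σ x) = σ' x) ∨ (half ∧ ∀ x, (g ^ k) (σ x) = σ' (c x))}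

variable [IsAlgClosure ℚ Ω]

section stab

variable {ι : Type*} (E : ι → Type*) [∀ j, Field (E j)]

/-- The elements acting trivially on the images of all embeddings. -/
def stab (Ω : Type*) [Field Ω] [CharZero Ω] : Subgroup Gal(Ω/ℚ) where
  carrier := {h | ∀ j (σ : E j →+* Ω) (x : E j), h (σ x) = σ x}
  mul_mem' := by
    intro a b ha hb j σ x
    rw [AlgEquiv.mul_apply, hb j σ x, ha j σ x]
  one_mem' := by
    intro j σ x
    rfl
  inv_mem' := by
    intro a ha j σ x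
    have h1 := ha j σ x
    have h2 : a⁻¹ (a (σ x)) = σ x := by
      rw [← AlgEquiv.mul_apply, inv_mul_cancel]
      rfl
    rw [h1] at h2
    exact h2

instance : (stab E Ω).Normal := by
  refine ⟨fun h hh g j σ x => ?_⟩
  have h1 := hh j ((((g⁻¹ : Gal(Ω/ℚ)) : Ω ≃+* Ω) : Ω →+* Ω).comp σ) x
  have h2 : h (g⁻¹ (σ x)) = g⁻¹ (σ x) := h1
  rw [AlgEquiv.mul_apply, AlgEquiv.mul_apply, h2, ← AlgEquiv.mul_apply, mul_inv_cancel]
  rfl

omit [IsAlgClosure ℚ Ω] in
theorem isOpen_stab [Finite ι] [∀ j, NumberField (E j)] :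
    IsOpen (stab E Ω : Set Gal(Ω/ℚ)) := by
  have h1 : (stab E Ω : Set Gal(Ω/ℚ)) =
      ⋂ j, ⋂ σ : E j →+* Ω, {h : Gal(Ω/ℚ) | ∀ x, h (σ x) = σ x} := by
    ext h
    simp only [Set.mem_iInter]
    rfl
  rw [h1]
  refine isOpen_iInter_of_finite fun j => isOpen_iInter_of_finite fun σ => ?_
  let f : E j →ₐ[ℚ] Ω := σ.toRatAlgHom
  have hfin : FiniteDimensional ℚ f.fieldRange := by
    let φ : E j →ₗ[ℚ] f.fieldRange :=
      { toFun := fun x => ⟨f x, ⟨x, rfl⟩⟩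
        map_add' := fun x y => Subtype.ext (map_add f x y)
        map_smul' := fun a x => Subtype.ext (f.toLinearMap.map_smul a x) }
    refine Module.Finite.of_surjective φ ?_
    rintro ⟨_, ⟨x, rfl⟩⟩
    exact ⟨x, rfl⟩
  have h2 : {h : Gal(Ω/ℚ) | ∀ x, h (σ x) = σ x} =
      (f.fieldRange.fixingSubgroup : Set Gal(Ω/ℚ)) := by
    ext h
    rw [SetLike.mem_coe, IntermediateField.mem_fixingSubgroup_iff]
    constructor
    · rintro hh _ ⟨x, rfl⟩
      exact hh x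
    · intro hh x
      exact hh _ ⟨x, rfl⟩
  rw [h2]
  exact f.fieldRange.fixingSubgroup_isOpen

end stab

section step

variable {Γ : Subgroup Gal(Ω/ℚ)} {ℓ : ℕ} [Fact ℓ.Prime] {E : Type*} [Field E] [NumberField E]

open Pool.Agent.Ord (pe pe_map resInt)

/-- If the Newton polygon misses a break point, the norm of the coefficient is `p ^ c * m` with `m`
in a fixed finite set. -/
theorem norm_eq_of_lt (M : ESystem Γ ℓ E) {p : ℕ} [hp : Fact p.Prime] {v : Ω →+* PadicAlgCl p}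
    {φ : Gal(Ω/ℚ)} (hφ : IsFrob p v φ) (hdisc : ¬ (p : ℤ) ∣ discr E) {P : Polynomial (𝓞 E)}
    (hP : P.Monic) (hn : P.natDegree = M.n)
    (hpure : ∀ (η : E →+* ℂ) (z : ℂ), (P.map (resInt η)).IsRoot z → ‖z‖ ^ 2 = (p : ℝ) ^ M.w)
    (hNP : ∀ σ : E →+* Ω, ∀ i ≤ M.n, ‖v (σ (pe P M.n i : 𝓞 E))‖ ≤
      ((p : ℝ)⁻¹) ^ height (M.s σ) i)
    {g : Gal(Ω/ℚ)} (hg : g ∈ Γ) {k' : ℕ}
    (hk' : ∀ (k : ℕ) (σ : E →+* Ω) x, (φ ^ (k' * k)) (σ x) = (g ^ k) (σ x))
    {σ : E →+* Ω} {i : ℕ} (hi : i ≤ M.n)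
    (hcrit : finrank ℚ E * (i * M.w) ≤
      2 * (∑ σ' : E →+* Ω, height (M.s σ') i + (orbit g M.c σ (2 * i = M.n)).ncard))
    (hlt : ‖v (σ (pe P M.n i : 𝓞 E))‖ < ((p : ℝ)⁻¹) ^ height (M.s σ) i) :
    ∃ m : ℤ, |m| ≤ ((M.n.choose i) ^ finrank ℚ E : ℕ) ∧ Algebra.norm ℤ (pe P M.n i) =
      (p : ℤ) ^ (∑ σ' : E →+* Ω, height (M.s σ') i + (orbit g M.c σ (2 * i = M.n)).ncard) * m := by
  classical
  have hp1 : (1 : ℝ) < p := by exact_mod_cast hp.out.one_lt
  have hp0 : (0 : ℝ) < p := by positivity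
  have hq0 : (0 : ℝ) < (p : ℝ)⁻¹ := by positivity
  set x : 𝓞 E := pe P M.n i with hx
  set S : Set (E →+* Ω) := orbit g M.c σ (2 * i = M.n) with hS
  -- strict inequality on the whole orbit
  have horb : ∀ σ' ∈ S, ‖v (σ' x)‖ < ((p : ℝ)⁻¹) ^ height (M.s σ') i := by
    rintro σ' ⟨k, hk | ⟨hhalf, hk⟩⟩
    · have h1 : ‖v (σ' x)‖ = ‖v (σ x)‖ :=
        Pool.Agent.Ord.norm_transfer hφ hdisc (k := k' * k) (fun y => by rw [hk', hk]) x
      have h2 : M.s σ' = M.s σ := by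
        have h3 := M.s_galois (g ^ k) (pow_mem hg k) σ
        have h4 : ((((g ^ k : Gal(Ω/ℚ)) : Ω ≃+* Ω) : Ω →+* Ω).comp σ) = σ' := by
          ext y
          exact hk y
        rw [h4] at h3
        exact h3
      rw [h1, h2]
      exact hlt
    · have h1 : ‖v ((σ'.comp M.c) x)‖ = ‖v (σ x)‖ :=
        Pool.Agent.Ord.norm_transfer hφ hdisc (k := k' * k) (fun y => by rw [hk', hk]; rfl) x
      have h2 : M.s (σ'.comp M.c) = M.s σ := by
        have h3 := M.s_galois (g ^ k) (pow_mem hg k) σ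
        have h4 : ((((g ^ k : Gal(Ω/ℚ)) : Ω ≃+* Ω) : Ω →+* Ω).comp σ) = σ'.comp M.c := by
          ext y
          exact hk y
        rw [h4] at h3
        exact h3
      have h5 : M.n - i = i := by omega
      have h6 := Pool.Agent.Ord.conj_rel hP hn hpure M.c_conj hi
      rw [h5] at h6
      have h7 := congrArg (fun y => ‖v (σ' y)‖) h6
      simp only [map_mul, map_pow, map_natCast, norm_mul, norm_pow] at h7
      rw [Pool.Agent.Ord.norm_p_eq] at h7
      have h8 : height (M.s (σ'.comp M.c)) i + height (M.s σ') M.n =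
          M.w * i + height (M.s σ') (M.n - i) :=
        Pool.Agent.Ord.HP_conj (M.s_symm σ') hi
      rw [h5, h2] at h8
      have h9 : ‖v (σ' (pe P M.n M.n : 𝓞 E))‖ ≤ ((p : ℝ)⁻¹) ^ height (M.s σ') M.n :=
        hNP σ' M.n le_rfl
      have h10 : ‖v (σ' (M.c x))‖ < ((p : ℝ)⁻¹) ^ height (M.s σ) i := by
        rw [← h1] at hlt
        exact hlt
      have h11 : ‖v (σ' x)‖ * ((p : ℝ)⁻¹) ^ (M.w * i) <
          ((p : ℝ)⁻¹) ^ height (M.s σ') i * ((p : ℝ)⁻¹) ^ (M.w * i) := by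
        rw [← pow_add, add_comm (height (M.s σ') i), ← h8]
        calc ‖v (σ' x)‖ * ((p : ℝ)⁻¹) ^ (M.w * i)
            = ‖v (σ' (pe P M.n M.n : 𝓞 E))‖ * ‖v (σ' (M.c x))‖ := h7
          _ ≤ ((p : ℝ)⁻¹) ^ height (M.s σ') M.n * ‖v (σ' (M.c x))‖ := by gcongr
          _ < ((p : ℝ)⁻¹) ^ height (M.s σ') M.n * ((p : ℝ)⁻¹) ^ height (M.s σ) i := by gcongr
          _ = _ := by rw [← pow_add, add_comm]
      exact lt_of_mul_lt_mul_right h11 (pow_pos hq0 _).le
  -- divisibility of the norm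
  have hdvd : (p : ℤ) ^ (∑ σ' : E →+* Ω, (height (M.s σ') i + if σ' ∈ S then 1 else 0)) ∣
      Algebra.norm ℤ x := by
    apply Pool.Agent.Ord.pow_dvd_norm v
    intro σ'
    by_cases hσ' : σ' ∈ S
    · rw [if_pos hσ']
      exact Pool.Agent.Ord.norm_le_of_lt Ω (τ := v.comp σ') hdisc (horb σ' hσ')
    · rw [if_neg hσ', add_zero]
      exact hNP σ' i hi
  have hsum : ∑ σ' : E →+* Ω, (height (M.s σ') i + if σ' ∈ S then 1 else 0) =
      ∑ σ' : E →+* Ω, height (M.s σ') i + S.ncard := by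
    rw [Finset.sum_add_distrib, Finset.sum_boole, Set.ncard_eq_toFinset_card']
    congr 1
    rw [Nat.cast_id]
    congr 1
    ext σ'
    simp
  rw [hsum] at hdvd
  set c : ℕ := ∑ σ' : E →+* Ω, height (M.s σ') i + S.ncard with hc
  obtain ⟨m, hm⟩ := hdvd
  refine ⟨m, ?_, hm⟩
  have h1 := Pool.Agent.Ord.norm_bound hP hn (by positivity) hpure hi
  rw [← hx, hm] at h1
  push_cast at h1
  rw [mul_pow, mul_pow, ← pow_mul, ← pow_mul, ← pow_mul, ← pow_mul] at h1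
  have h2 : (p : ℝ) ^ (M.w * (i * finrank ℚ E)) ≤ (p : ℝ) ^ (c * 2) := by
    apply pow_le_pow_right₀ hp1.le
    calc M.w * (i * finrank ℚ E) = finrank ℚ E * (i * M.w) := by ring
      _ ≤ 2 * c := hcrit
      _ = c * 2 := mul_comm _ _
  have h3 : (p : ℝ) ^ (c * 2) * (m : ℝ) ^ 2 ≤
      (p : ℝ) ^ (c * 2) * (M.n.choose i : ℝ) ^ (2 * finrank ℚ E) := by
    calc (p : ℝ) ^ (c * 2) * (m : ℝ) ^ 2 ≤ (M.n.choose i : ℝ) ^ (2 * finrank ℚ E) *
          (p : ℝ) ^ (M.w * (i * finrank ℚ E)) := h1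
      _ ≤ (M.n.choose i : ℝ) ^ (2 * finrank ℚ E) * (p : ℝ) ^ (c * 2) := by gcongr
      _ = _ := mul_comm _ _
  have h4 : (m : ℝ) ^ 2 ≤ ((M.n.choose i : ℝ) ^ finrank ℚ E) ^ 2 := by
    rw [← pow_mul, mul_comm (finrank ℚ E)]
    exact le_of_mul_le_mul_left h3 (by positivity)
  have h5 : |(m : ℝ)| ≤ (M.n.choose i : ℝ) ^ finrank ℚ E := by
    have := sq_le_sq.1 h4
    rwa [abs_of_nonneg (by positivity : (0 : ℝ) ≤ (M.n.choose i : ℝ) ^ finrank ℚ E)] at this
  exact_mod_cast h5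

end step

section main

open Pool.Agent.Ord (pe pe_map resInt)

set_option maxHeartbeats 1000000 in
/-- **Serre's criterion for ordinary primes, with coefficients.** Let `M j` be finitely many motives
over `F`, with coefficients in totally real or CM fields `E j`, such that the `ℓ`-adic monodromy
group of their sum is connected. Let `g` be an element of the Galois group of `F` which acts on the
images of the embeddings of the `E j` with order prime to `ℓ`. Suppose that for each `j`, each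
embedding `σ` and each break point `i` of the Hodge polygon of the `σ`-part, the total area
`[E : ℚ] i w / 2 - ∑ σ', HP σ' i` is at most the size of the orbit of `σ` under `g` (together with
the orbit of its complex conjugate if `2 i = n`). Then there are infinitely many primes at which all
the `M j` are ordinary: for each `σ`, the Newton polygon equals the Hodge polygon. -/
theorem result (Γ : Subgroup Gal(Ω/ℚ)) (hΓ : IsOpen (Γ : Set Gal(Ω/ℚ))) (ℓ : ℕ) [Fact ℓ.Prime]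
    {κ : Type*} [Finite κ] (E : κ → Type*) [∀ j, Field (E j)] [∀ j, NumberField (E j)]
    (M : ∀ j, ESystem Γ ℓ (E j))
    (hconn : IsConnected fun a : Σ j, (E j →+* ℂ_[ℓ]) => (M a.1).ρ a.2)
    (hdist : ∀ j, (∃ σ i, IsBreak ((M j).s σ) i) →
      ∃ (lam : E j →+* ℂ_[ℓ]) (x : Γ) (z z' : ℂ_[ℓ]), z ≠ z' ∧
        ((M j).ρ lam x).charpoly.IsRoot z ∧ ((M j).ρ lam x).charpoly.IsRoot z')
    (g : Gal(Ω/ℚ)) (hg : g ∈ Γ) (m : ℕ) (hm : ¬ ℓ ∣ m)
    (hgm : ∀ j (σ : E j →+* Ω) (x : E j), (g ^ m) (σ x) = σ x)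
    (hcrit : ∀ j (σ : E j →+* Ω) (i : ℕ), IsBreak ((M j).s σ) i →
      finrank ℚ (E j) * (i * (M j).w) ≤ 2 * (∑ σ' : E j →+* Ω, height ((M j).s σ') i +
        (orbit g (M j).c σ (2 * i = (M j).n)).ncard))
    (b : ℕ) :
    ∃ (p : ℕ) (_ : Fact p.Prime) (v : Ω →+* PadicAlgCl p) (φ : Γ), b < p ∧
      IsFrob p v (φ : Gal(Ω/ℚ)) ∧ ∀ j, ∃ P : Polynomial (𝓞 (E j)),
        (∀ lam, ((M j).ρ lam φ⁻¹).charpoly = P.map (lam.comp (algebraMap (𝓞 (E j)) (E j)))) ∧
        ∀ σ : E j →+* Ω,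
          ((P.map ((v.comp σ).comp (algebraMap (𝓞 (E j)) (E j)))).roots.map fun z => ‖z‖) =
            (univ : Finset (Fin (M j).n)).val.map fun k => ((p : ℝ)⁻¹) ^ (M j).s σ k := by
  classical
  have hΩ : IsAlgClosed Ω := IsAlgClosure.isAlgClosed ℚ
  -- the indices of the functions
  let κ' : Type _ := {j : κ // ∃ σ i, IsBreak ((M j).s σ) i}
  let τ : Type _ := {t : Σ j, (E j →+* Ω) × Fin (M j).n // IsBreak ((M t.1).s t.2.1) t.2.2.val}
  let jj : τ → κ' := fun t => ⟨t.1.1, t.1.2.1, t.1.2.2.val, t.2⟩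
  let h : τ → ℕ := fun t => t.1.2.2.val
  let c : τ → ℕ := fun t => ∑ σ' : E t.1.1 →+* Ω, height ((M t.1.1).s σ') t.1.2.2.val +
    (orbit g (M t.1.1).c t.1.2.1 (2 * t.1.2.2.val = (M t.1.1).n)).ncard
  let T : τ → Finset ℂ_[ℓ] := fun t =>
    (Finset.Icc (-(((M t.1.1).n.choose t.1.2.2.val) ^ finrank ℚ (E t.1.1) : ℕ) : ℤ)
      (((M t.1.1).n.choose t.1.2.2.val) ^ finrank ℚ (E t.1.1) : ℕ)).image fun m : ℤ => (m : ℂ_[ℓ])
  have hh0 : ∀ t, 0 < h t := by
    rintro ⟨⟨j, σ, i⟩, a, b, hai, hbi, hab⟩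
    show 0 < i.val
    simp only at hai
    omega
  have hhn : ∀ t, h t < (M (jj t).1).n := fun t => t.1.2.2.2
  choose ld x₀ z₀ z₀' hz₀ hzr hzr' using fun j : κ' => hdist j.1 j.2
  have hdist' : ∀ j : κ', ∃ (g : Γ) (α : Fin (M j.1).n → ℂ_[ℓ]),
      ((M j.1).ρ (ld j) g).charpoly = ∏ i, (Polynomial.X - Polynomial.C (α i)) ∧
        ∃ i i', α i ≠ α i' := by
    intro j
    obtain ⟨α, hα⟩ := Pool.Agent.Ord.exists_eigenvalues ((M j.1).ρ (ld j) (x₀ j))
    have hroot : ∀ z, ((M j.1).ρ (ld j) (x₀ j)).charpoly.IsRoot z → ∃ i, α i = z := by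
      intro z hz
      rw [hα, Polynomial.IsRoot.def, Polynomial.eval_prod, Finset.prod_eq_zero_iff] at hz
      obtain ⟨i, -, hi⟩ := hz
      refine ⟨i, ?_⟩
      rw [Polynomial.eval_sub, Polynomial.eval_X, Polynomial.eval_C, sub_eq_zero] at hi
      exact hi.symm
    obtain ⟨i, hi⟩ := hroot _ (hzr j)
    obtain ⟨i', hi'⟩ := hroot _ (hzr' j)
    exact ⟨x₀ j, α, hα, i, i', by rw [hi, hi']; exact hz₀ j⟩
  have hgmN : g ^ m ∈ stab E Ω := hgm
  have hconn' : Pool.Agent.Ord.IsConnectedFamily (Pool.Agent.Ord.tot (ι := κ')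
      (Λ := fun j => (E j.1 →+* ℂ_[ℓ])) (n := fun j => (M j.1).n) fun j => (M j.1).ρ) := by
    intro U hU f hf hzero
    refine hconn U hU f ?_ hzero
    refine Algebra.adjoin_mono ?_ hf
    rintro _ ⟨a, i, i', rfl⟩
    exact ⟨⟨a.1.1, a.2⟩, i, i', rfl⟩
  -- large primes
  have : Fintype κ := Fintype.ofFinite κ
  let B : ℕ := max (max b ℓ) (univ.sup fun j => max ((M j).bad.sup id) (discr (E j)).natAbs)
  obtain ⟨p, hBp, hp, φ, hφ, havoid, k', hk'⟩ := Pool.Agent.Ord.core_galois₂ ℓ hΓ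
    (ι := κ') (Λ := fun j => (E j.1 →+* ℂ_[ℓ])) (n := fun j => (M j.1).n)
    (ρ := fun j => (M j.1).ρ) (fun j lam => (M j.1).cont lam) hconn' hdist' jj h hh0 hhn c T hg
    (N := stab E Ω)
    (isOpen_stab E) hm hgmN B
  have hfact : Fact p.Prime := ⟨hp⟩
  have hbp : b < p := lt_of_le_of_lt ((le_max_left b ℓ).trans (le_max_left _ _)) hBp
  have hℓp : ℓ < p := lt_of_le_of_lt ((le_max_right b ℓ).trans (le_max_left _ _)) hBp
  have hsup : ∀ j, max ((M j).bad.sup id) (discr (E j)).natAbs < p := fun j =>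
    lt_of_le_of_lt ((Finset.le_sup (f := fun j => max ((M j).bad.sup id) (discr (E j)).natAbs)
      (Finset.mem_univ j)).trans (le_max_right _ _)) hBp
  have hbad : ∀ j, p ∉ (M j).bad := by
    intro j hmem
    have h1 : p ≤ (M j).bad.sup id := Finset.le_sup (f := id) hmem
    exact absurd (lt_of_le_of_lt (le_max_left _ _) (hsup j)) (not_lt.2 h1)
  have hdisc : ∀ j, ¬ (p : ℤ) ∣ discr (E j) := by
    intro j hdvd
    have h1 := Int.natAbs_dvd_natAbs.2 hdvd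
    rw [Int.natAbs_natCast] at h1
    have h2 := Nat.le_of_dvd (Int.natAbs_pos.2 (discr_ne_zero (E j))) h1
    exact absurd (lt_of_le_of_lt (le_max_right _ _) (hsup j)) (not_lt.2 h2)
  obtain ⟨v, hv⟩ := Pool.Agent.Ord.exists_isFrobFor hφ
  refine ⟨p, hfact, v, φ, hbp, hv, fun j => ?_⟩
  obtain ⟨P, hP1, hpure, hNP⟩ := (M j).compat p (hbad j) v φ hv
  refine ⟨P, hP1, ?_⟩
  -- basic facts on `P`
  obtain ⟨lam₀⟩ := (inferInstance : Nonempty (E j →+* ℂ_[ℓ]))
  have hinj : Function.Injective (lam₀.comp (algebraMap (𝓞 (E j)) (E j))) :=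
    lam₀.injective.comp RingOfIntegers.coe_injective
  have hPm : P.Monic := by
    apply Polynomial.monic_of_injective hinj
    rw [← hP1]
    exact Matrix.charpoly_monic _
  have hPn : P.natDegree = (M j).n := by
    rw [← Polynomial.natDegree_map_eq_of_injective hinj, ← hP1,
      Matrix.charpoly_natDegree_eq_dim, Fintype.card_fin]
  have hNP' : ∀ σ : E j →+* Ω, ∀ i ≤ (M j).n, ‖v (σ (pe P (M j).n i : 𝓞 (E j)))‖ ≤
      ((p : ℝ)⁻¹) ^ height ((M j).s σ) i := by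
    intro σ i hi
    have h1 : v (σ (pe P (M j).n i : 𝓞 (E j))) = (-1) ^ i * v (σ (P.coeff ((M j).n - i))) := by
      simp [pe]
    rw [h1, norm_mul, norm_pow, norm_neg, norm_one, one_pow, one_mul]
    exact hNP σ i hi
  have hk'' : ∀ (k : ℕ) (σ : E j →+* Ω) x,
      (((φ : Gal(Ω/ℚ)) ^ (k' * k)) (σ x)) = (g ^ k) (σ x) := by
    intro k σ x
    rw [← QuotientGroup.eq] at hk'
    have h1 : ((((φ : Gal(Ω/ℚ)) ^ (k' * k) : Gal(Ω/ℚ))) : Gal(Ω/ℚ) ⧸ stab E Ω) =
        ((g ^ k : Gal(Ω/ℚ)) : Gal(Ω/ℚ) ⧸ stab E Ω) := by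
      rw [pow_mul, QuotientGroup.mk_pow, hk', ← QuotientGroup.mk_pow]
    rw [QuotientGroup.eq] at h1
    have h2 := h1 j σ x
    rw [AlgEquiv.mul_apply] at h2
    have h3 := congrArg ((φ : Gal(Ω/ℚ)) ^ (k' * k)) h2
    rw [← AlgEquiv.mul_apply, mul_inv_cancel] at h3
    exact h3.symm
  have hpC : (p : ℂ_[ℓ]) ≠ 0 := by exact_mod_cast hp.ne_zero
  -- the break points
  have hbreak : ∀ (σ : E j →+* Ω) (i : ℕ), IsBreak ((M j).s σ) i →
      ‖v (σ (pe P (M j).n i : 𝓞 (E j)))‖ = ((p : ℝ)⁻¹) ^ height ((M j).s σ) i := by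
    intro σ i hi
    have hin : i < (M j).n := by
      obtain ⟨-, b', -, hb', -⟩ := hi
      rw [← hb']
      exact b'.2
    by_contra hne
    have hlt := lt_of_le_of_ne (hNP' σ i hin.le) hne
    obtain ⟨m₀, hm₀, hm₁⟩ := norm_eq_of_lt (M j) hv (hdisc j) hPm hPn hpure hNP' hg hk'' hin.le
      (hcrit j σ i hi) hlt
    let t : τ := ⟨⟨j, σ, ⟨i, hin⟩⟩, hi⟩
    apply havoid t (m₀ : ℂ_[ℓ])
    · simp only [T, Finset.mem_image, Finset.mem_Icc]
      exact ⟨m₀, abs_le.1 hm₀, rfl⟩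
    · rw [Pool.Agent.Ord.tw₂, Pool.Agent.Ord.cycTwist_frob ℓ Γ (c t) hp hℓp.ne' φ hφ]
      have h1 : ∏ l : (E j →+* ℂ_[ℓ]), pe ((M j).ρ l φ⁻¹).charpoly (M j).n i =
          ((Algebra.norm ℤ (pe P (M j).n i) : ℤ) : ℂ_[ℓ]) := by
        rw [← Pool.Agent.Ord.prod_emb ℂ_[ℓ]]
        refine Finset.prod_congr rfl fun l _ => ?_
        rw [hP1 l, pe_map]
        rfl
      have h2 : ∏ l : (E (jj t).1 →+* ℂ_[ℓ]),
          pe ((M (jj t).1).ρ l φ⁻¹).charpoly (M (jj t).1).n (h t) =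
          ((Algebra.norm ℤ (pe P (M j).n i) : ℤ) : ℂ_[ℓ]) := h1
      rw [h2, hm₁]
      push_cast
      rw [mul_comm ((p : ℂ_[ℓ]) ^ _), mul_assoc]
      have h3 : (p : ℂ_[ℓ]) ^ (∑ σ' : E j →+* Ω, height ((M j).s σ') i +
          (orbit g (M j).c σ (2 * i = (M j).n)).ncard) * ((p : ℂ_[ℓ]) ^ c t)⁻¹ = 1 :=
        mul_inv_cancel₀ (pow_ne_zero _ hpC)
      rw [h3, mul_one]
  intro σ
  refine Pool.Agent.Ord.newton_of_vertices hPm hPn ((M j).s_mono σ) (τ := v.comp σ)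
    (fun i hi => hNP σ i hi) fun t => ?_
  show ‖v (σ (pe P (M j).n (Pool.Agent.Ord.cnt ((M j).s σ) t) : 𝓞 (E j)))‖ = _
  set i := Pool.Agent.Ord.cnt ((M j).s σ) t with hi
  have hin : i ≤ (M j).n := Pool.Agent.Ord.cnt_le _ t
  rcases Nat.eq_zero_or_pos i with h0 | h0
  · rw [h0]
    have h1 : pe P (M j).n 0 = 1 := by
      rw [pe, pow_zero, one_mul, Nat.sub_zero, ← hPn]
      exact hPm
    rw [h1]
    simp [Pool.Agent.Ord.HP]
  · rcases lt_or_eq_of_le hin with hlt | heq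
    · apply hbreak σ i
      refine ⟨⟨i - 1, by omega⟩, ⟨i, hlt⟩, ?_, rfl, ?_⟩
      · show i - 1 + 1 = i
        omega
      · have h1 := (Pool.Agent.Ord.le_iff_lt_cnt ((M j).s_mono σ) t ⟨i - 1, by omega⟩).2
          (by show i - 1 < _; omega)
        have h2 : ¬ (M j).s σ ⟨i, hlt⟩ ≤ t := fun h3 =>
          lt_irrefl i ((Pool.Agent.Ord.le_iff_lt_cnt ((M j).s_mono σ) t ⟨i, hlt⟩).1 h3)
        omega
    · rw [heq]
      refine Pool.Agent.Ord.norm_top_eq v (H := fun σ => height ((M j).s σ) (M j).n)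
        (fun σ => hNP' σ _ le_rfl) ?_ σ
      have h1 := Pool.Agent.Ord.norm_top hPm hPn hpure
      have h2 := Pool.Agent.Ord.sum_HP_top (s := (M j).s) (M j).c_conj (M j).s_symm
      have h3 : 2 * ∑ σ : E j →+* Ω, height ((M j).s σ) (M j).n =
          (M j).w * (M j).n * finrank ℚ (E j) := h2
      rw [h3, pow_mul, pow_mul]
      exact_mod_cast h1

end main

end Pool.Agent.Results.MP_0dad22_ag.SerreCriterion
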